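import Pool.Agent.L7h3.QD.Stm

/-!
# Project QD, part SQ: the twists `y² = x³ - D² x`
-/

set_option autoImplicit false
set_option linter.unusedVariables false
set_option linter.unusedSectionVars false

open NumberField IsDedekindDomain
open Filter Complex
open scoped Topology PeriodPair Classical

namespace Pool.Agent.L7h65.QD

open Pool.Agent.Y699
open Pool.Agent.TH936.CM
open Pool.Agent.L7h3.QD
open Pool.Agent.L7h3.MQ (Sol sol_finite)
open H385 (ZI RQ im1 nrm)
open Pool.Agent.W164.RC (tc_mul tc_star two2 prim_iff_dvd unit_norm unit_cases)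
open Pool.Agent.H304R2.EC.A1 (prim prim_mul prim_cancel prim_one prim_norm_odd prim_star eq_one_of_prim
  norm_def' re_mul' im_mul' eq_of_dvd prim_ne_zero exists_prim)
open Pool.Agent.H304R3.HK (tc HC LH)

/-- finiteness if all points have order two -/
lemma fin_of_y0 {L : Type} [Field L] [CharZero L] {δ : L} (hδ : δ ≠ 0)
    (h : ∀ x y : L, y ^ 2 = x ^ 3 + δ * x → y = 0) :
    Finite (Pool.Agent.Y715.Z.q4 δ).toAffine.Point := by
  rw [sol_finite hδ]
  have hroots : {x : L | x ^ 3 + δ * x = 0}.Finite := by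
    have h3 : (Polynomial.X ^ 3 + Polynomial.C δ * Polynomial.X : Polynomial L) ≠ 0 := by
      intro h4
      have h5 := congrArg (fun p => Polynomial.eval 1 p) h4
      have h7 := congrArg (fun p => Polynomial.eval 2 p) h4
      simp at h5 h7
      have h8 : (6 : L) = 0 := by linear_combination h7 - 2 * h5
      norm_num at h8
    refine (Polynomial.finite_setOf_isRoot h3).subset fun x hx => ?_
    simp only [Set.mem_setOf_eq, Polynomial.IsRoot.def, Polynomial.eval_add, Polynomial.eval_pow,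
      Polynomial.eval_X, Polynomial.eval_mul, Polynomial.eval_C] at hx ⊢
    exact hx
  refine (hroots.image (fun x => (x, (0 : L)))).subset ?_
  rintro ⟨x, y⟩ hxy
  have h4 : y ^ 2 = x ^ 3 + δ * x := hxy
  have hy := h x y h4
  subst hy
  refine ⟨x, ?_, rfl⟩
  show x ^ 3 + δ * x = 0
  rw [← h4]; ring

theorem t_SQ (hLF : S_LF) : S_SQ := by
  intro K _ _ e ι _ _ pr hp V hV hw hker
  have hDne : DD pr V ≠ 0 := DD_ne hp V
  have hcoe : ((e (-(DD pr V) ^ 2) : 𝓞 K) : K) = -(((e (DD pr V) : 𝓞 K) : K)) ^ 2 := by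
    rw [map_neg, map_pow]
    push_cast
    rfl
  have hK0 : (((e (DD pr V) : 𝓞 K) : K)) ≠ 0 := by
    intro h
    apply hDne
    have h1 : e (DD pr V) = 0 := by exact_mod_cast h
    exact (map_eq_zero_iff e e.injective).1 h1
  constructor
  · refine fin_of_y0 (neg_ne_zero.2 (pow_ne_zero 2 hK0)) ?_
    let _ : Algebra ZI K := ((algebraMap (𝓞 K) K).comp (e : ZI →+* 𝓞 K)).toAlgebra
    have _ : IsFractionRing ZI K := IsFractionRing.of_ringEquiv_left e (fun _ => rfl)
    intro x y hxy
    refine no_points (F := K) hp hw hker (x := x) ?_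
    have e1 : algebraMap ZI K (DD pr V) = ((e (DD pr V) : 𝓞 K) : K) := rfl
    rw [e1, hxy]; ring
  · rw [← hcoe]
    refine hLF K e (cnd pr V) (XX hp V) (XX_HC hp V) (LH_ne hp hV hw hker) _
      (neg_ne_zero.2 (pow_ne_zero 2 hDne)) ?_ ?_
    · intro z hz hzd
      have e1 : -(-(DD pr V) ^ 2) = (DD pr V) ^ 2 := by ring
      rw [e1, q4_pow hz, q4_sq hz, XX_qr hp V hz, tc_int]
      simp
    · intro z hz hzd
      have h1 : z ∣ DD pr V := by
        have h2 : z ∣ (DD pr V) ^ 2 := by
          have := (dvd_neg).2 hzd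
          rwa [neg_neg] at this
        exact hz.pr.dvd_of_dvd_pow h2
      obtain ⟨i, hi, hzi⟩ : ∃ i ∈ V, z = pr i := by
        unfold DD at h1
        obtain ⟨i, hi, h3⟩ := (hz.pr.dvd_finsetProd_iff _).1 h1
        exact ⟨i, hi, hz.eq_of_dvd (hp.pp i) h3⟩
      refine ⟨?_, 2, by norm_num, ?_, ?_⟩
      · by_contra hne
        have h5 := (cop_cnd hp V z).1 (((XX_HC hp V).supp z).1 hne)
        exact h5.2 i hi (by rw [hzi])
      · rw [dvd_neg]
        exact pow_dvd_pow_of_dvd h1 2
      · intro h2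
        rw [dvd_neg] at h2
        obtain ⟨D', hD'⟩ := h1
        have h3 : ¬ z ∣ D' := by
          intro h4
          apply DD_sqf hp V z hz.pr
          rw [hD', sq]
          exact mul_dvd_mul_left z h4
        have h5 : z ^ 2 * z ∣ z ^ 2 * D' ^ 2 := by
          have e2 : (DD pr V) ^ 2 = z ^ 2 * D' ^ 2 := by rw [hD']; ring
          rw [← e2]
          have e3 : z ^ (2 + 1) = z ^ 2 * z := by ring
          rwa [← e3]
        have h6 := (mul_dvd_mul_iff_left (pow_ne_zero 2 hz.pr.ne_zero)).1 h5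
        exact h3 (hz.pr.dvd_of_dvd_pow h6)

end Pool.Agent.L7h65.QD
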