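import Pool.Agent.L7h65.QD.Sq
import Pool.Agent.Helper653.CubFermat

/-!
# Project QD, part BASE: the curve `y² = x³ - x` over `ℚ(i)`
-/

set_option autoImplicit false
set_option linter.unusedVariables false
set_option linter.unusedSectionVars false

open NumberField IsDedekindDomain
open Filter Complex
open scoped Topology PeriodPair Classical

namespace Pool.Agent.L7h65.QD

open Pool.Agent.Y699
open Pool.Agent.TH936.CM
open Pool.Agent.L7h3.QD
open Pool.Agent.L7h3.MQ (Sol sol_finite fin_step)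
open H385 (ZI RQ im1 nrm)
open Pool.Agent.W164.RC (tc_mul tc_star two2 prim_iff_dvd unit_norm unit_cases)
open Pool.Agent.H304R2.EC.A1 (prim prim_mul prim_cancel prim_one prim_norm_odd prim_star eq_one_of_prim
  norm_def' re_mul' im_mul' eq_of_dvd prim_ne_zero exists_prim)
open Pool.Agent.H304R3.HK (tc HC LH)

lemma two_not_sq (r : ℚ) (h : r ^ 2 = 2) : False := by
  have h1 : IsSquare ((2 : ℕ) : ℚ) := ⟨r, by rw [← sq, h]; norm_num⟩
  rw [Rat.isSquare_natCast_iff] at h1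
  obtain ⟨a, ha⟩ := h1
  have h2 : a < 2 := by nlinarith
  interval_cases a <;> omega

/-- the rational points of `y² = x³ - x` -/
lemma q_pts (x y : ℚ) (hxy : y ^ 2 = x ^ 3 + (-1) * x) : y = 0 := by
  by_contra hy
  set u : ℚ := (x ^ 2 + 1) / (2 * y) with hu
  set v : ℚ := (x ^ 2 - 2 * x - 1) / (2 * y) with hv
  set w : ℚ := (x ^ 2 + 2 * x - 1) / (2 * y) with hw
  have h4y : (2 * y) ^ 2 = 4 * (x ^ 3 - x) := by linear_combination 4 * hxy
  have h4y0 : (4 * (x ^ 3 - x)) ≠ 0 := by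
    rw [← h4y]; exact pow_ne_zero 2 (mul_ne_zero two_ne_zero hy)
  have huv : u ^ 2 - 1 = v ^ 2 := by
    rw [hu, hv, div_pow, div_pow, h4y, div_sub_one h4y0, div_left_inj' h4y0]
    ring
  have huw : u ^ 2 + 1 = w ^ 2 := by
    rw [hu, hw, div_pow, div_pow, h4y, div_add_one h4y0, div_left_inj' h4y0]
    ring
  have ht : u ^ 4 - 1 = (v * w) ^ 2 := by
    rw [mul_pow, ← huv, ← huw]; ring
  have hq : (u.den : ℚ) ≠ 0 := by exact_mod_cast u.den_ne_zero
  have hun : u * u.den = u.num := Rat.mul_den_eq_num u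
  have hz : ((v * w) * (u.den : ℚ) ^ 2) ^ 2 = ((u.num ^ 4 - (u.den : ℤ) ^ 4 : ℤ) : ℚ) := by
    push_cast
    rw [← hun, mul_pow, ← ht]
    ring
  obtain ⟨z, hz2⟩ : ∃ z : ℤ, (z : ℚ) = (v * w) * (u.den : ℚ) ^ 2 := by
    have h1 : IsSquare (((u.num ^ 4 - (u.den : ℤ) ^ 4 : ℤ)) : ℚ) := ⟨_, by rw [← hz, sq]⟩
    rw [Rat.isSquare_intCast_iff] at h1
    obtain ⟨a, ha⟩ := h1
    have h2 : ((v * w) * (u.den : ℚ) ^ 2) ^ 2 = (a : ℚ) ^ 2 := by
      rw [hz, ha]; push_cast; ring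
    rcases sq_eq_sq_iff_eq_or_eq_neg.1 h2 with h3 | h3
    · exact ⟨a, h3.symm⟩
    · exact ⟨-a, by rw [h3]; push_cast; ring⟩
  have h5 : u.num ^ 4 - (u.den : ℤ) ^ 4 = z ^ 2 := by
    have h6 : ((u.num ^ 4 - (u.den : ℤ) ^ 4 : ℤ) : ℚ) = ((z ^ 2 : ℤ) : ℚ) := by
      rw [← hz, ← hz2]; push_cast; ring
    exact_mod_cast h6
  rcases cub_fermat_sub _ _ _ h5 with h6 | h6
  · exact u.den_ne_zero (by exact_mod_cast h6)
  · rw [h6, Int.cast_zero] at hz2
    have h7 : v * w = 0 := by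
      rcases mul_eq_zero.1 hz2.symm with h8 | h8
      · exact h8
      · exact absurd h8 (pow_ne_zero 2 hq)
    have h2y : 2 * y ≠ 0 := mul_ne_zero two_ne_zero hy
    rcases mul_eq_zero.1 h7 with h8 | h8
    · rw [hv, div_eq_zero_iff] at h8
      exact two_not_sq (x - 1) (by linear_combination h8.resolve_right h2y)
    · rw [hw, div_eq_zero_iff] at h8
      exact two_not_sq (x + 1) (by linear_combination h8.resolve_right h2y)

lemma finrank_ZI : Module.finrank ℤ ZI = 2 := by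
  let f : ZI ≃ₗ[ℤ] (ℤ × ℤ) :=
    { toFun := fun z => (z.re, z.im)
      map_add' := fun a b => by simp
      map_smul' := fun c a => by
        ext <;> simp
      invFun := fun p => ⟨p.1, p.2⟩
      left_inv := fun z => rfl
      right_inv := fun p => rfl }
  rw [f.finrank_eq, Module.finrank_prod, Module.finrank_self]

variable {K : Type} [Field K] [NumberField K]

lemma finrank_K (e : ZI ≃+* 𝓞 K) : Module.finrank ℚ K = 2 := by
  rw [← NumberField.RingOfIntegers.rank, ← e.toAddEquiv.toIntLinearEquiv.finrank_eq, finrank_ZI]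

lemma fin_base (e : ZI ≃+* 𝓞 K) : Finite (Pool.Agent.Y715.Z.q4 (-1 : K)).toAffine.Point := by
  have h1 : Finite (Pool.Agent.Y715.Z.q4 (-1 : ℚ)).toAffine.Point :=
    fin_of_y0 (by norm_num) q_pts
  have hθ : (((e im1 : 𝓞 K) : K)) ^ 2 = algebraMap ℚ K (-1) := by
    have h2 : (im1 : ZI) ^ 2 = -1 := by decide
    have h3 : (e im1) ^ 2 = -1 := by rw [← map_pow, h2, map_neg, map_one]
    have h4 : (((e im1 : 𝓞 K) : K)) ^ 2 = (((e im1) ^ 2 : 𝓞 K) : K) := by push_cast; rfl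
    rw [h4, h3, map_neg, map_one]
    push_cast
    rfl
  have hn : (((e im1 : 𝓞 K) : K)) ∉ Set.range (algebraMap ℚ K) := by
    rintro ⟨q, hq⟩
    rw [← hq, ← map_pow] at hθ
    have := (algebraMap ℚ K).injective hθ
    nlinarith [sq_nonneg q]
  have h2 := fin_step (finrank_K e) hθ hn (δ := -1) (by norm_num) h1 (by
    have e1 : (-1 : ℚ) * (-1) ^ 2 = -1 := by norm_num
    rw [e1]; exact h1)
  rwa [map_neg, map_one] at h2

theorem t_BASE (hLF : S_LF) : S_BASE := by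
  intro K _ _ e
  refine ⟨fin_base e, ?_⟩
  let pr : Empty → ZI := fun i => i.elim
  have hp : PF pr := ⟨fun i => i.elim, fun i => i.elim⟩
  obtain ⟨L, Ω, hGL⟩ := exists_lat
  have hne : LH (XX hp ∅) (1 / 2) ≠ 0 := by
    rw [LH_eq hp ∅ (lim_empty hGL hp)]
    refine (map_ne_zero _).2 ?_
    refine mul_ne_zero (div_ne_zero hGL.lat.ne (tc_ne two2_ne)) ?_
    unfold Est
    have hx0 := hGL.x0_ne
    refine div_ne_zero (neg_ne_zero.2 ?_) (mul_ne_zero (by norm_num) hx0)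
    intro h
    have h1 := hGL.y0_sq
    rw [h] at h1
    apply hx0
    have h2 : (8 : ℂ) * ℘[L] (dz Ω) = 0 := by linear_combination h1
    exact (mul_eq_zero.1 h2).resolve_left (by norm_num)
  have hcoe : ((e (-1) : 𝓞 K) : K) = -1 := by
    rw [map_neg, map_one]
    push_cast
    rfl
  rw [← hcoe]
  refine hLF K e (cnd pr ∅) (XX hp ∅) (XX_HC hp ∅) hne _ (by decide) ?_ ?_
  · intro z hz hzd
    rw [neg_neg, q4_one hz, XX_qr hp ∅ hz]
    have h1 : DD pr (∅ : Finset Empty) = 1 := Finset.prod_empty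
    rw [h1, qr_one hz, tc_one]
    simp
  · intro z hz hzd
    exfalso
    apply hz.pr.not_isUnit
    rw [dvd_neg] at hzd
    exact isUnit_of_dvd_one hzd

end Pool.Agent.L7h65.QD
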